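import Pool.Agent.Lib.MP_abb0cc_co.Main

/-!
# Subsum-free sequences that are Ramsey for sums over cliques

For every `n ≥ 2` there is a strictly increasing integer sequence `x` without `n + 1` terms all of
whose nonempty subsums are terms, such that for every finite colouring of the integers (any number
`r` of colours) and every graph `G` on `ℕ` whose connected components have finite chromatic number
there is a subsequence such that all sums over nonempty cliques of `G` with at most `n` vertices
are terms of the sequence and have the same colour. The complete graph would give the full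
question Q2 (and Q1). The graph in which `i` and `j` are adjacent when `0 < |i - j| < n` gives the
version of the question for `n` consecutive terms of the subsequence.
-/

set_option autoImplicit false

namespace Pool.Agent.Results.MP_abb0cc_co.CliqueSums

theorem result : ∀ n : ℕ, 2 ≤ n →
    ∃ x : ℕ → ℤ, StrictMono x ∧
      (∀ s : Finset ℕ, s.card = n + 1 →
        ∃ t ⊆ s, t.Nonempty ∧ (∑ i ∈ t, x i) ∉ Set.range x) ∧
      (∀ (r : ℕ) (c : ℤ → Fin r) (G : SimpleGraph ℕ),
        (∀ K : G.ConnectedComponent, ∃ m : ℕ, (G.induce K.supp).Colorable m) →
        ∃ u : ℕ → ℕ, StrictMono u ∧ ∃ k : Fin r,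
          ∀ t : Finset ℕ, t.Nonempty → t.card ≤ n → G.IsClique t →
            (∑ l ∈ t, x (u l)) ∈ Set.range x ∧ c (∑ l ∈ t, x (u l)) = k) := by
  intro n hn
  obtain ⟨x, hx, h1, h2, -⟩ := Pool.SubSum.main n hn
  exact ⟨x, hx, h1, h2⟩

end Pool.Agent.Results.MP_abb0cc_co.CliqueSums
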