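import Mathlib
import Pool.Agent.Lib.MP_abb0cc_co.Types

/-!
The case `n = 2` of the question: an increasing sequence of integers with no three terms having all
seven nonempty subsums in the sequence, such that every colouring with two colours has an infinite
subsequence all of whose terms and sums of two distinct terms lie in the sequence and have the same
colour.
-/

set_option autoImplicit false

namespace Pool.Agent.Results.MP_abb0cc_co.TwoTerms

open Filter Finset Pool.Agent.MP_abb0cc_co

theorem result :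
    ∃ x : ℕ → ℤ, StrictMono x ∧
      (∀ s : Finset ℕ, s.card = 3 →
        ∃ t ⊆ s, t.Nonempty ∧ (∑ i ∈ t, x i) ∉ Set.range x) ∧
      (∀ c : ℤ → Fin 2, ∃ u : ℕ → ℕ, StrictMono u ∧ ∃ k : Fin 2,
        ∀ t : Finset ℕ, t.Nonempty → t.card ≤ 2 →
          (∑ l ∈ t, x (u l)) ∈ Set.range x ∧ c (∑ l ∈ t, x (u l)) = k) := by
  obtain ⟨P, Q, R, ⟨hP, hQ, hR⟩, hT⟩ := exists_triangle
  -- membership in the set of values
  have hinf : {n : ℕ | ∃ f, XX f ∧ val f = n}.Infinite := by
    obtain ⟨u, hu1, hu2, -⟩ := hT {x | XX x} (Or.inl ⟨hP, hQ⟩)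
    refine Set.infinite_of_injective_forall_mem hu1.injective ?_
    intro n
    exact ⟨u n, hu2 n, rfl⟩
  set S : ℕ → Prop := fun n => ∃ f, XX f ∧ val f = n with hS
  have hinf' : {n | S n}.Infinite := hinf
  have hrange : ∀ z : ℤ, z ∈ Set.range (fun n => ((Nat.nth S n : ℕ) : ℤ)) ↔
      ∃ f, XX f ∧ (val f : ℤ) = z := by
    intro z
    constructor
    · rintro ⟨n, rfl⟩
      obtain ⟨f, hf, he⟩ := Nat.nth_mem_of_infinite hinf' n
      exact ⟨f, hf, by simp [he]⟩
    · rintro ⟨f, hf, rfl⟩
      have : val f ∈ Set.range (Nat.nth S) := by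
        rw [Nat.range_nth_of_infinite hinf']
        exact ⟨f, hf, rfl⟩
      obtain ⟨n, hn⟩ := this
      exact ⟨n, by simp [hn]⟩
  -- sums of two values
  have hsum : ∀ f g : ℕ →₀ ℕ, (∀ i, f i ≤ 8) → (∀ i, g i ≤ 4) →
      ((val f : ℤ) + val g ∈ Set.range (fun n => ((Nat.nth S n : ℕ) : ℤ))) → XX (f + g) := by
    intro f g hf hg h
    rw [hrange] at h
    obtain ⟨k, hk, he⟩ := h
    have e : val k = val (f + g) := by
      rw [val_add]
      exact_mod_cast he
    have := val_inj k (f + g) (fun i => by have := XX_le hk i; omega)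
      (fun i => by
        have := hf i
        have := hg i
        simp only [Finsupp.coe_add, Pi.add_apply]
        omega) e
    rw [← this]
    exact hk
  refine ⟨fun n => ((Nat.nth S n : ℕ) : ℤ), ?_, ?_, ?_⟩
  · intro i j hij
    have := Nat.nth_strictMono hinf' hij
    simp only
    exact_mod_cast this
  · intro s hs
    obtain ⟨i, j, k, hij, hik, hjk, rfl⟩ := Finset.card_eq_three.mp hs
    by_contra hc
    push Not at hc
    have hm : ∀ n, ∃ f, XX f ∧ (val f : ℤ) = ((Nat.nth S n : ℕ) : ℤ) := fun n =>
      (hrange _).mp ⟨n, rfl⟩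
    obtain ⟨f, hf, hfe⟩ := hm i
    obtain ⟨g, hg, hge⟩ := hm j
    obtain ⟨h, hh, hhe⟩ := hm k
    have c1 := hc {i, j} (by intro a; simp; tauto) (by simp)
    have c2 := hc {i, k} (by intro a; simp; tauto) (by simp)
    have c3 := hc {i, j, k} (by simp) (by simp)
    rw [sum_pair hij] at c1
    rw [sum_pair hik] at c2
    rw [sum_insert (by simp [hij, hik]), sum_pair hjk, ← add_assoc] at c3
    rw [← hfe, ← hge] at c1
    rw [← hfe, ← hhe] at c2
    rw [← hfe, ← hge, ← hhe] at c3
    have bf := XX_le hf
    have bg := XX_le hg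
    have bh := XX_le hh
    have d1 := hsum f g (fun i => by have := bf i; omega) bg c1
    have d2 := hsum f h (fun i => by have := bf i; omega) bh c2
    have d3 : XX (f + g + h) := by
      refine hsum (f + g) h (fun i => ?_) bh ?_
      · have := bf i
        have := bg i
        simp only [Finsupp.coe_add, Pi.add_apply]
        omega
      · rw [val_add]
        push_cast
        exact c3
    exact three_free hf hg hh d1 d2 d3
  · intro c
    -- one colour class is large in two of the three ultrafilters
    have hcol : ∀ U : Ultrafilter (ℕ →₀ ℕ), {x | XX x} ∈ U →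
        ∃ k : Fin 2, {x | XX x ∧ c (val x) = k} ∈ U := by
      intro U hU
      have hcov : ∀ᶠ x in (U : Filter (ℕ →₀ ℕ)),
          (XX x ∧ c (val x) = 0) ∨ (XX x ∧ c (val x) = 1) := by
        filter_upwards [hU] with x hx
        have : c (val x) = 0 ∨ c (val x) = 1 := by
          have h2 := (c (val x)).isLt
          rcases Nat.lt_or_ge (c (val x)).val 1 with h | h
          · left
            ext
            simp
            omega
          · right
            ext
            simp
            omega
        rcases this with h | h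
        · exact Or.inl ⟨hx, h⟩
        · exact Or.inr ⟨hx, h⟩
      rcases (Ultrafilter.eventually_or.mp hcov) with h | h
      · exact ⟨0, h⟩
      · exact ⟨1, h⟩
    obtain ⟨k, hk⟩ : ∃ k : Fin 2, ∃ u : ℕ → (ℕ →₀ ℕ), StrictMono (fun n => val (u n)) ∧
        (∀ n, u n ∈ {x | XX x ∧ c (val x) = k}) ∧
        ∀ i j, i < j → u i + u j ∈ {x | XX x ∧ c (val x) = k} := by
      obtain ⟨k1, h1⟩ := hcol P hP
      obtain ⟨k2, h2⟩ := hcol Q hQ
      obtain ⟨k3, h3⟩ := hcol R hR
      have : ∀ k1 k2 k3 : Fin 2, k1 = k2 ∨ k1 = k3 ∨ k2 = k3 := by decide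
      have := this k1 k2 k3
      rcases this with rfl | rfl | rfl
      · exact ⟨_, hT _ (Or.inl ⟨h1, h2⟩)⟩
      · exact ⟨_, hT _ (Or.inr (Or.inl ⟨h1, h3⟩))⟩
      · exact ⟨_, hT _ (Or.inr (Or.inr ⟨h2, h3⟩))⟩
    obtain ⟨v, hv1, hv2, hv3⟩ := hk
    have hidx : ∀ n, ∃ i, Nat.nth S i = val (v n) := by
      intro n
      have : val (v n) ∈ Set.range (Nat.nth S) := by
        rw [Nat.range_nth_of_infinite hinf']
        exact ⟨v n, (hv2 n).1, rfl⟩
      exact this
    choose u hu using hidx
    refine ⟨u, ?_, k, ?_⟩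
    · intro i j hij
      have h1 := hv1 hij
      simp only at h1
      rw [← hu i, ← hu j] at h1
      exact (Nat.nth_lt_nth hinf').mp h1
    · intro t ht1 ht2
      simp only [hu]
      have ht3 : t.card = 1 ∨ t.card = 2 := by
        have := Finset.card_pos.mpr ht1
        omega
      rcases ht3 with ht | ht
      · obtain ⟨i, rfl⟩ := Finset.card_eq_one.mp ht
        rw [sum_singleton]
        exact ⟨(hrange _).mpr ⟨v i, (hv2 i).1, rfl⟩, (hv2 i).2⟩
      · obtain ⟨i, j, hij, rfl⟩ := Finset.card_eq_two.mp ht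
        rw [sum_pair hij]
        have key : ∀ i j, i < j → ((val (v i) : ℤ) + val (v j)) ∈
            Set.range (fun n => ((Nat.nth S n : ℕ) : ℤ)) ∧
            c ((val (v i) : ℤ) + val (v j)) = k := by
          intro i j hij
          obtain ⟨a1, a2⟩ := hv3 i j hij
          rw [val_add] at a2
          push_cast at a2
          refine ⟨(hrange _).mpr ⟨v i + v j, a1, ?_⟩, a2⟩
          rw [val_add]
          push_cast
          rfl
        rcases lt_or_gt_of_ne hij with h | h
        · exact key i j h
        · rw [add_comm]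
          exact key j i h

end Pool.Agent.Results.MP_abb0cc_co.TwoTerms
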